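import Pool.Agent.P.MP_c2be6c_an.U.Rad

/-! The measure algebra of a probability space is a strongly closed, complete, non reflexive
Boolean algebra of subspaces left invariant by the scalars only exactly when it has no atom. -/

open MeasureTheory Pool.Agent.P.MP_c2be6c_an.U
open scoped InnerProductSpace

namespace Pool.Agent.Results.MP_c2be6c_an.ExactRange

theorem result (Ω : Type) [MeasurableSpace Ω] (μ : Measure Ω) [IsProbabilityMeasure μ] :
    (∃ (H : Type) (_ : NormedAddCommGroup H) (_ : InnerProductSpace ℂ H) (_ : CompleteSpace H)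
      (E : Set (Submodule ℂ H)), IsSCBA E ∧ Represents μ E ∧ ¬ IsReflexive E ∧
        ∀ T ∈ Alg E, ∃ c : ℂ, ∀ x, T x = c • x) ↔ Atomless μ := by
  constructor
  · rintro ⟨H, _, _, _, E, hE, hM, hr, ht⟩
    by_contra h
    obtain ⟨x, y, hx0, hy0, h1⟩ := exists_rank_one hE hM h
    obtain ⟨c, hc⟩ := ht _ h1
    replace hc : ∀ z, ⟪y, z⟫_ℂ • x = c • z := hc
    have hc0 : c ≠ 0 := fun h2 => by simpa [h2, hx0, hy0] using hc y
    refine hr fun N _ _ => ?_
    rcases eq_or_ne N ⊥ with rfl | hN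
    · exact hE.2.1
    obtain ⟨z, hz, hz0⟩ := N.ne_bot_iff.1 hN
    have h2 : x ∈ N := (N.smul_mem_iff (s := ⟪y, z⟫_ℂ) fun h2 => by
      simpa [h2, hc0, hz0] using (hc z).symm).1 (hc z ▸ N.smul_mem c hz)
    rw [Submodule.eq_top_iff'.2 fun w => (N.smul_mem_iff hc0).1 (hc w ▸ N.smul_mem _ h2)]
    exact hE.2.2.1
  · intro h
    obtain ⟨R⟩ := h.rad
    obtain ⟨A, hA, h1, h2⟩ := h.split
    have g := R.good (Y := ℂ)
    have ht : ∀ T ∈ Alg (EE (R.Dl (Y := ℂ))), ∃ c : ℂ, ∀ x, T x = c • x := by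
      intro T hT
      obtain ⟨N, hN, e⟩ := g.lift hA h1 h2 hT
      obtain ⟨c, rfl⟩ := R.const_of hN fun ξ => ⟨‖T‖ * ‖ξ‖, fun m => by
        rw [← e, R.Dl_W, map_smul, norm_smul, norm_dl, Nat.unpair_pair, mul_comm]
        gcongr
        simpa [norm_tn, R.norm_W] using T.le_opNorm (tn (R.W {Nat.pair m 0}) ξ)⟩
      have h3 : T = lf c := ext_of_dense g.dense fun f => by rw [e, R.Dl_lf]
      have h4 : c 1 • (1 : Lp ℂ 2 μ →L[ℂ] Lp ℂ 2 μ) = lf c :=
        Loc.eq_lf (fun S _ f hf => Submodule.smul_mem _ _ hf) fun ξ => by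
          rw [show c ξ = c 1 • ξ by rw [smul_eq_mul, mul_comm, ← smul_eq_mul, ← map_smul]; simp,
            map_smul]
          rfl
      exact ⟨c 1, fun x => by rw [h3, ← h4]; rfl⟩
    refine ⟨_, inferInstance, inferInstance, inferInstance, _, g.isSCBA, g.represents,
      not_isReflexive g.isSCBA (innerSL ℂ (R.W {0})) (innerSL ℂ (R.W {1})) (fun T hT => ?_)
        (u := R.W {1}) (v := R.W {0}) ?_ ?_ ?_ ?_, ht⟩
    · obtain ⟨c, hc⟩ := ht T hT
      exact ⟨c • 1, fun x => by simp [hc], fun x => by simp [hc]⟩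
    all_goals simp [-inner_self_eq_norm_sq_to_K, R.inner_W]

end Pool.Agent.Results.MP_c2be6c_an.ExactRange
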