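import Pool.Agent.P.MP_c2be6c_an.U.Core

/-! The infinite ampliation of a unital operator algebra is the algebra of a strongly closed,
complete, non reflexive Boolean algebra of subspaces isomorphic to a given separable measure algebra
exactly when the measure has no atom and the operator algebra is ultrastrongly closed. -/

open MeasureTheory Pool.Agent.P.MP_c2be6c_an.U
open scoped InnerProductSpace

namespace Pool.Agent.Results.MP_c2be6c_an.Universality

theorem result (Ω : Type) [MeasurableSpace Ω] (μ : Measure Ω) [IsProbabilityMeasure μ]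
    [IsSeparable μ]
    (H : Type) [NormedAddCommGroup H] [InnerProductSpace ℂ H] [CompleteSpace H]
    [TopologicalSpace.SeparableSpace H] [Nontrivial H] (A : Subalgebra ℂ (H →L[ℂ] H)) :
    Realizes μ (coordAction (fun (x : lp (fun _ : ℕ => H) 2) (n : ℕ) => x n)
      (A : Set (H →L[ℂ] H))) ↔
    Atomless μ ∧ UltrastronglyClosed (A : Set (H →L[ℂ] H)) := by
  have key : ∀ (T : ll H →L[ℂ] ll H) a, (∀ x n, T x n = a (x n)) → T = amp a := fun T a h =>
    ContinuousLinearMap.ext fun x => lp.ext (funext fun n => by rw [h, amp_apply])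
  constructor
  · rintro ⟨E, hE, hr, -, h⟩
    refine ⟨by_contra fun h0 => ?_, fun b hb => ?_⟩
    · obtain ⟨x, y, hx, hy, h1⟩ := exists_rank_one hE hr h0
      obtain ⟨a, -, h2⟩ := h ▸ h1
      replace h2 : ∀ (z : ll H) n, ⟪y, z⟫_ℂ • x n = a (z n) := h2
      obtain ⟨n, hn⟩ : ∃ n, x n ≠ 0 := not_forall.1 fun h3 => hx (lp.ext (funext h3))
      have h3 : ∀ ξ, a ξ = 0 := fun ξ => by
        have h4 := h2 (lp.single 2 (n + 1) ξ) n
        have h5 := h2 (lp.single 2 (n + 1) ξ) (n + 1)
        rw [lp.single_apply_ne _ _ _ n.succ_ne_self.symm, map_zero] at h4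
        rw [lp.single_apply_self, (smul_eq_zero.1 h4).resolve_right hn, zero_smul] at h5
        exact h5.symm
      exact hy (inner_self_eq_zero.1 ((smul_eq_zero.1 ((h2 y n).trans (h3 _))).resolve_right hn))
    have h1 : amp b ∈ Alg E := fun N hN x hx => by
      refine (hE.1 N hN).closure_subset (Metric.mem_closure_iff.2 fun ε hε => ?_)
      obtain ⟨a, ha, h2⟩ := hb x (hasSum_sq x).summable (ε ^ 2) (by positivity)
      have h3 : amp a ∈ Alg E := h ▸ ⟨a, ha, amp_apply a⟩
      refine ⟨_, h3 N hN x hx, ?_⟩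
      rw [norm_amp_sub] at h2
      rw [dist_comm, dist_eq_norm]
      exact lt_of_pow_lt_pow_left₀ 2 hε.le h2
    obtain ⟨a, ha, h2⟩ := h ▸ h1
    rwa [show b = a from ContinuousLinearMap.ext fun ξ => by simpa using h2 (lp.single 2 0 ξ) 0]
  · rintro ⟨hμ, hA⟩
    obtain ⟨Y, a1, a2, a3⟩ := exists_sub A hA
    have := a1.completeSpace_coe
    obtain ⟨F, b1, b2⟩ := exists_fr (H := H)
    obtain ⟨D, U, c1, c2, c3, c4⟩ := exists_unitary hμ
      (lp.singleContinuousLinearMap ℂ (fun _ : ℕ => H) 2) (fun i j ξ η => by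
        simp only [lp.singleContinuousLinearMap_apply, lp.inner_single_left]
        split_ifs with h
        · rw [h, lp.single_apply_self]
        · rw [lp.single_apply_ne _ _ _ h, inner_zero_right])
      fun x hx => lp.ext (funext fun j => ext_inner_right ℂ fun ξ => by
        have := hx j ξ
        rw [lp.singleContinuousLinearMap_apply, lp.inner_single_right] at this
        exact this.trans (inner_zero_left ξ).symm)
    obtain ⟨E, d1, d2, d3⟩ := core hμ D F Y (fun ξ => by rw [b1]; exact a2 ξ) U c1 c2 c3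
      fun b => c4 b _ fun j ξ => by rw [b2]; exact amp_single b j ξ
    simp only [b2, a3] at d3
    obtain ⟨ξ, hξ⟩ := exists_ne (0 : H)
    refine ⟨E, d1, d2, not_isReflexive d1 (lp.evalCLM ℂ (fun _ : ℕ => H) 2 0)
      (lp.evalCLM ℂ (fun _ : ℕ => H) 2 1) (fun T hT => ?_) (u := lp.single 2 1 ξ)
      (v := lp.single 2 0 ξ) (lp.single_apply_ne (E := fun _ : ℕ => H) 2 1 ξ zero_ne_one)
      (lp.single_apply_ne (E := fun _ : ℕ => H) 2 0 ξ one_ne_zero) rfl hξ,
      Set.ext fun T => (d3 T).trans ⟨?_, fun ⟨a, ha, h⟩ => ⟨a, ha, key T a h⟩⟩⟩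
    · obtain ⟨c, -, rfl⟩ := (d3 T).1 hT
      exact ⟨c, fun x => amp_apply c x 0, fun x => amp_apply c x 1⟩
    · rintro ⟨a, ha, rfl⟩
      exact ⟨a, ha, amp_apply a⟩

end Pool.Agent.Results.MP_c2be6c_an.Universality
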